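import Mathlib

/-!
# There is no `C¹` retraction of the ball onto the sphere

The analytic proof of Milnor, in the form of Rogers, in all dimensions.
-/

set_option autoImplicit false

namespace Pool.Agent.Lib.Brouwer

open MeasureTheory Metric Set Filter Topology

namespace BRA

section Radial

variable {E : Type*} [NormedAddCommGroup E] [NormedSpace ℝ E]

/-- the radial retraction onto the closed unit ball -/
noncomputable def pr (x : E) : E := (max 1 ‖x‖)⁻¹ • x

theorem pr_of_le {x : E} (hx : ‖x‖ ≤ 1) : pr x = x := by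
  simp [pr, max_eq_left hx]

theorem norm_pr_le (x : E) : ‖pr x‖ ≤ 1 := by
  have h1 : (0 : ℝ) < max 1 ‖x‖ := lt_of_lt_of_le one_pos (le_max_left _ _)
  rw [pr, norm_smul, norm_inv, Real.norm_of_nonneg h1.le, inv_mul_le_iff₀ h1, mul_one]
  exact le_max_right _ _

theorem norm_pr_of_ge {x : E} (hx : 1 ≤ ‖x‖) : ‖pr x‖ = 1 := by
  have h1 : (0 : ℝ) < ‖x‖ := lt_of_lt_of_le one_pos hx
  rw [pr, max_eq_right hx, norm_smul, norm_inv, norm_norm, inv_mul_cancel₀ h1.ne']

theorem norm_pr_sub_le (x y : E) : ‖pr x - pr y‖ ≤ 2 * ‖x - y‖ := by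
  have ha : (1 : ℝ) ≤ max 1 ‖x‖ := le_max_left _ _
  have hb : (1 : ℝ) ≤ max 1 ‖y‖ := le_max_left _ _
  have hy : ‖y‖ ≤ max 1 ‖y‖ := le_max_right _ _
  have hab : |max 1 ‖y‖ - max 1 ‖x‖| ≤ ‖x - y‖ := by
    have h := abs_max_sub_max_le_abs ‖y‖ ‖x‖ 1
    rw [max_comm ‖y‖, max_comm ‖x‖] at h
    refine h.trans ?_
    rw [norm_sub_rev]
    exact abs_norm_sub_norm_le y x
  unfold pr
  generalize max 1 ‖x‖ = a at *
  generalize max 1 ‖y‖ = b at *
  have ha0 : 0 < a := by linarith
  have hb0 : 0 < b := by linarith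
  have e : a⁻¹ • x - b⁻¹ • y = a⁻¹ • (x - y) + (a⁻¹ - b⁻¹) • y := by
    rw [smul_sub, sub_smul]; abel
  rw [e]
  refine (norm_add_le _ _).trans ?_
  have i1 : ‖a⁻¹ • (x - y)‖ ≤ ‖x - y‖ := by
    rw [norm_smul, norm_inv, Real.norm_of_nonneg ha0.le]
    exact mul_le_of_le_one_left (norm_nonneg _) (inv_le_one_of_one_le₀ ha)
  have i2 : ‖(a⁻¹ - b⁻¹) • y‖ ≤ ‖x - y‖ := by
    rw [norm_smul, Real.norm_eq_abs]
    have e2 : a⁻¹ - b⁻¹ = (b - a) * (a⁻¹ * b⁻¹) := by
      field_simp
    rw [e2, abs_mul, abs_of_pos (mul_pos (inv_pos.2 ha0) (inv_pos.2 hb0)), mul_assoc]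
    have h3 : a⁻¹ * b⁻¹ * ‖y‖ ≤ 1 := by
      rw [mul_assoc]
      have h4 : b⁻¹ * ‖y‖ ≤ 1 := by
        rw [inv_mul_le_iff₀ hb0, mul_one]; exact hy
      have h5 : 0 ≤ b⁻¹ * ‖y‖ := by positivity
      exact mul_le_one₀ (inv_le_one_of_one_le₀ ha) h5 h4
    calc |b - a| * (a⁻¹ * b⁻¹ * ‖y‖) ≤ |b - a| * 1 :=
          mul_le_mul_of_nonneg_left h3 (abs_nonneg _)
      _ ≤ ‖x - y‖ := by rw [mul_one]; exact hab
  linarith

end Radial

section Perturb

variable {E : Type*} [NormedAddCommGroup E] [NormedSpace ℝ E] [CompleteSpace E]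

/-- a small Lipschitz perturbation, vanishing on the sphere, of the identity of the ball is a
bijection of the ball -/
theorem perturb (g : E → E) (C : ℝ) (hC : 0 ≤ C)
    (hg : ∀ x y : E, ‖x‖ ≤ 1 → ‖y‖ ≤ 1 → ‖g x - g y‖ ≤ C * ‖x - y‖)
    (h0 : ∀ x : E, ‖x‖ = 1 → g x = 0) (hB : ∀ x : E, ‖x‖ ≤ 1 → ‖x + g x‖ ≤ 1)
    (t : ℝ) (ht0 : 0 ≤ t) (ht1 : t ≤ 1) (ht : t * (2 * C) < 1) :
    InjOn (fun x : E => x + t • g x) (closedBall 0 1) ∧
      (fun x : E => x + t • g x) '' (closedBall 0 1) = closedBall 0 1 := by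
  constructor
  · intro x hx y hy hxy
    rw [mem_closedBall_zero_iff] at hx hy
    simp only at hxy
    have h1 : x - y = t • (g y - g x) := by
      rw [smul_sub]
      have := hxy
      rw [← sub_eq_zero] at this ⊢
      rw [← this]; abel
    have h2 : ‖x - y‖ ≤ t * (C * ‖x - y‖) := by
      calc ‖x - y‖ = t * ‖g y - g x‖ := by
            conv_lhs => rw [h1]
            rw [norm_smul, Real.norm_of_nonneg ht0]
        _ ≤ t * (C * ‖x - y‖) := by
            rw [norm_sub_rev (g y)]
            exact mul_le_mul_of_nonneg_left (hg x y hx hy) ht0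
    have h3 : t * C < 1 := by nlinarith [mul_nonneg ht0 hC]
    by_contra hne
    have h4 : 0 < ‖x - y‖ := norm_pos_iff.2 (sub_ne_zero.2 hne)
    nlinarith
  · apply Subset.antisymm
    · rintro _ ⟨x, hx, rfl⟩
      rw [mem_closedBall_zero_iff] at hx ⊢
      simp only
      have e : x + t • g x = (1 - t) • x + t • (x + g x) := by
        rw [sub_smul, smul_add, one_smul]; abel
      rw [e]
      calc ‖(1 - t) • x + t • (x + g x)‖ ≤ ‖(1 - t) • x‖ + ‖t • (x + g x)‖ := norm_add_le _ _
        _ = (1 - t) * ‖x‖ + t * ‖x + g x‖ := by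
            rw [norm_smul, norm_smul, Real.norm_of_nonneg ht0,
              Real.norm_of_nonneg (by linarith : (0 : ℝ) ≤ 1 - t)]
        _ ≤ (1 - t) * 1 + t * 1 := by
            have := hB x hx
            gcongr
        _ = 1 := by ring
    · intro y hy
      rw [mem_closedBall_zero_iff] at hy
      have hK0 : 0 ≤ t * (2 * C) := by positivity
      have hcontr : ContractingWith ⟨t * (2 * C), hK0⟩ (fun x : E => y - t • g (pr x)) := by
        refine ⟨by exact_mod_cast ht, ?_⟩
        refine LipschitzWith.of_dist_le_mul ?_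
        intro x x'
        rw [dist_eq_norm, dist_eq_norm]
        have e : y - t • g (pr x) - (y - t • g (pr x')) = t • (g (pr x') - g (pr x)) := by
          rw [smul_sub]; abel
        rw [e, norm_smul, Real.norm_of_nonneg ht0, norm_sub_rev]
        have h1 := hg (pr x) (pr x') (norm_pr_le x) (norm_pr_le x')
        have h2 := norm_pr_sub_le x x'
        calc t * ‖g (pr x) - g (pr x')‖ ≤ t * (C * (2 * ‖x - x'‖)) := by
              refine mul_le_mul_of_nonneg_left (h1.trans ?_) ht0
              exact mul_le_mul_of_nonneg_left h2 hC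
          _ = t * (2 * C) * ‖x - x'‖ := by ring
      have hfix := hcontr.fixedPoint_isFixedPt
      set x := ContractingWith.fixedPoint (fun x : E => y - t • g (pr x)) hcontr with hx
      have hfix' : y - t • g (pr x) = x := hfix
      by_cases hx1 : ‖x‖ ≤ 1
      · refine ⟨x, by rwa [mem_closedBall_zero_iff], ?_⟩
        rw [pr_of_le hx1] at hfix'
        exact (sub_eq_iff_eq_add.1 hfix').symm
      · push Not at hx1
        exfalso
        rw [h0 _ (norm_pr_of_ge hx1.le), smul_zero, sub_zero] at hfix'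
        rw [hfix'] at hy
        linarith

end Perturb

section Det

variable {E : Type*} [NormedAddCommGroup E] [NormedSpace ℝ E] [FiniteDimensional ℝ E]

/-- the determinant of `1 + t A` is positive for `t` small -/
theorem det_pos (A : E →L[ℝ] E) (C : ℝ) (hA : ‖A‖ ≤ C) (t : ℝ) (ht0 : 0 ≤ t)
    (ht : t * (2 * C) < 1) : 0 < LinearMap.det (1 + t • (A : E →ₗ[ℝ] E)) := by
  by_contra hneg
  push Not at hneg
  have hcont : Continuous (fun s : ℝ => LinearMap.det (1 + s • (A : E →ₗ[ℝ] E))) := by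
    have h1 : ∀ s : ℝ, LinearMap.det (1 + s • (A : E →ₗ[ℝ] E))
        = ContinuousLinearMap.det (1 + s • A) := by
      intro s; rfl
    simp only [h1]
    exact ContinuousLinearMap.continuous_det.comp (by fun_prop)
  have hiv := intermediate_value_Icc' ht0 hcont.continuousOn
  have h00 : LinearMap.det (1 + (0 : ℝ) • (A : E →ₗ[ℝ] E)) = 1 := by
    rw [zero_smul, add_zero]; exact LinearMap.det_id
  have hmem : (0 : ℝ) ∈ Icc (LinearMap.det (1 + t • (A : E →ₗ[ℝ] E)))
      (LinearMap.det (1 + (0 : ℝ) • (A : E →ₗ[ℝ] E))) := by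
    rw [h00]; exact ⟨hneg, zero_le_one⟩
  obtain ⟨s, hs, hs0⟩ := hiv hmem
  simp only at hs0
  have hker := LinearMap.bot_lt_ker_of_det_eq_zero hs0
  obtain ⟨v, hv, hv0⟩ := (Submodule.ne_bot_iff _).1 hker.ne'
  rw [LinearMap.mem_ker] at hv
  have hv' : v + s • A v = 0 := by simpa using hv
  have hv2 : v = -(s • A v) := eq_neg_of_add_eq_zero_left hv'
  have h1 : ‖v‖ ≤ s * (C * ‖v‖) := by
    calc ‖v‖ = s * ‖A v‖ := by
          conv_lhs => rw [hv2]
          rw [norm_neg, norm_smul, Real.norm_of_nonneg hs.1]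
      _ ≤ s * (C * ‖v‖) := by
          refine mul_le_mul_of_nonneg_left ?_ hs.1
          exact (A.le_opNorm v).trans (mul_le_mul_of_nonneg_right hA (norm_nonneg _))
  have hC : 0 ≤ C := (norm_nonneg A).trans hA
  have h2 : s * C ≤ t * C := mul_le_mul_of_nonneg_right hs.2 hC
  have h3 : t * C < 1 := by nlinarith [mul_nonneg ht0 hC]
  have h4 : 0 < ‖v‖ := norm_pos_iff.2 hv0
  nlinarith

/-- interpolation of `det (1 + t A)` -/
theorem det_interp (d : ℕ) (hd : Module.finrank ℝ E = d) (A : E →ₗ[ℝ] E) (v : ℕ → ℝ)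
    (hv : InjOn v (Finset.range (d + 1) : Set ℕ)) (t : ℝ) :
    LinearMap.det (1 + t • A) = ∑ j ∈ Finset.range (d + 1),
      LinearMap.det (1 + v j • A) * (Lagrange.basis (Finset.range (d + 1)) v j).eval t := by
  classical
  let b := Module.finBasisOfFinrankEq ℝ E hd
  set M := LinearMap.toMatrix b b A with hM
  set Q : Polynomial ℝ := Matrix.det ((Polynomial.X : Polynomial ℝ) • M.map Polynomial.C +
    (1 : Matrix (Fin d) (Fin d) ℝ).map Polynomial.C) with hQ
  have hev : ∀ s : ℝ, Q.eval s = LinearMap.det (1 + s • A) := by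
    intro s
    rw [← LinearMap.det_toMatrix b, hQ]
    have h1 := RingHom.map_det (Polynomial.evalRingHom s)
      ((Polynomial.X : Polynomial ℝ) • M.map Polynomial.C +
        (1 : Matrix (Fin d) (Fin d) ℝ).map Polynomial.C)
    rw [Polynomial.coe_evalRingHom] at h1
    rw [h1]
    congr 1
    have h3 : LinearMap.toMatrix b b (1 + s • A) = 1 + s • M := by
      rw [hM, map_add, map_smul, LinearMap.toMatrix_one]
    rw [h3]
    ext i j
    by_cases hij : i = j
    · subst hij; simp [add_comm]; exact mul_comm _ _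
    · simp [hij]; exact mul_comm _ _
  have hdeg : Q.degree < (Finset.range (d + 1)).card := by
    have h1 := Polynomial.natDegree_det_X_add_C_le M (1 : Matrix (Fin d) (Fin d) ℝ)
    rw [Fintype.card_fin] at h1
    refine lt_of_le_of_lt Polynomial.degree_le_natDegree ?_
    rw [Finset.card_range]
    exact_mod_cast Nat.lt_succ_of_le h1
  have hint := Lagrange.eq_interpolate_of_eval_eq (fun j => LinearMap.det (1 + v j • A)) hv hdeg
    (fun i _ => hev (v i))
  rw [← hev t, hint, Lagrange.interpolate_apply, Polynomial.eval_finsetSum]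
  refine Finset.sum_congr rfl fun j _ => ?_
  rw [Polynomial.eval_mul, Polynomial.eval_C]

end Det

end BRA

open BRA

/-- there is no continuously differentiable retraction of the ball onto the sphere -/
theorem no_C1_retraction (d : ℕ) (r : EuclideanSpace ℝ (Fin d) → EuclideanSpace ℝ (Fin d))
    (hr : ContDiff ℝ 1 r) (h1 : ∀ x, ‖x‖ = 1 → r x = x) (h2 : ∀ x, ‖r x‖ = 1) : False := by
  classical
  set B : Set (EuclideanSpace ℝ (Fin d)) := closedBall 0 1 with hBdef
  set g : EuclideanSpace ℝ (Fin d) → EuclideanSpace ℝ (Fin d) := fun x => r x - x with hg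
  have hgC : ContDiff ℝ 1 g := hr.sub contDiff_id
  have hgd : Differentiable ℝ g := hgC.differentiable one_ne_zero
  have hrd : Differentiable ℝ r := hr.differentiable one_ne_zero
  have hfc : Continuous (fderiv ℝ g) := hgC.continuous_fderiv one_ne_zero
  have hBc : IsCompact B := isCompact_closedBall _ _
  obtain ⟨C, hC⟩ := hBc.exists_bound_of_continuousOn hfc.continuousOn
  have h0B : (0 : EuclideanSpace ℝ (Fin d)) ∈ B := by simp [hBdef]
  have hC0 : 0 ≤ C := (norm_nonneg _).trans (hC 0 h0B)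
  have hlip : ∀ x y : EuclideanSpace ℝ (Fin d), ‖x‖ ≤ 1 → ‖y‖ ≤ 1 →
      ‖g x - g y‖ ≤ C * ‖x - y‖ := by
    intro x y hx hy
    exact (convex_closedBall (0 : EuclideanSpace ℝ (Fin d)) 1).norm_image_sub_le_of_norm_fderiv_le
      (fun z _ => hgd z) hC (by simpa [hBdef] using hy) (by simpa [hBdef] using hx)
  have hg0 : ∀ x : EuclideanSpace ℝ (Fin d), ‖x‖ = 1 → g x = 0 := by
    intro x hx; simp [hg, h1 x hx]
  have hgB : ∀ x : EuclideanSpace ℝ (Fin d), ‖x‖ ≤ 1 → ‖x + g x‖ ≤ 1 := by
    intro x _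
    have : x + g x = r x := by simp [hg]
    rw [this, h2]
  -- the integral of the determinant
  set P : ℝ → ℝ := fun t => ∫ x in B, LinearMap.det (1 + t • (fderiv ℝ g x :
    EuclideanSpace ℝ (Fin d) →ₗ[ℝ] EuclideanSpace ℝ (Fin d))) with hP
  have hPsmall : ∀ t : ℝ, 0 ≤ t → t ≤ 1 → t * (2 * C) < 1 → P t = volume.real B := by
    intro t ht0 ht1 ht
    obtain ⟨hinj, himg⟩ := perturb g C hC0 hlip hg0 hgB t ht0 ht1 ht
    have hder : ∀ x ∈ B, HasFDerivWithinAt (fun x => x + t • g x)
        (1 + t • fderiv ℝ g x : EuclideanSpace ℝ (Fin d) →L[ℝ] EuclideanSpace ℝ (Fin d)) B x := by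
      intro x _
      exact ((hasFDerivAt_id x).add ((hgd x).hasFDerivAt.const_smul t)).hasFDerivWithinAt
    have hcv := integral_image_eq_integral_abs_det_fderiv_smul volume
      (measurableSet_closedBall) hder hinj (fun _ => (1 : ℝ))
    rw [himg] at hcv
    simp only [smul_eq_mul, mul_one, integral_const, MeasurableSet.univ,
      measureReal_restrict_apply, univ_inter] at hcv
    rw [hcv, hP]
    simp only
    refine setIntegral_congr_fun measurableSet_closedBall ?_
    intro x hx
    simp only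
    have hpos := det_pos (fderiv ℝ g x) C (hC x hx) t ht0 ht
    exact (abs_of_pos hpos).symm
  -- nodes
  obtain ⟨t0, ht0, ht01, ht0C⟩ : ∃ t0 : ℝ, 0 < t0 ∧ t0 ≤ 1 ∧ t0 * (2 * C) < 1 := by
    refine ⟨(1 + 2 * C)⁻¹, by positivity, inv_le_one_of_one_le₀ (by linarith), ?_⟩
    rw [inv_mul_lt_iff₀ (by positivity)]
    linarith
  set v : ℕ → ℝ := fun j => t0 * (j / (d + 1 : ℝ)) with hv
  have hvinj : InjOn v (Finset.range (d + 1) : Set ℕ) := by
    intro i _ j _ hij
    simp only [hv] at hij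
    have h3 := mul_left_cancel₀ ht0.ne' hij
    have h4 : (i : ℝ) = j := by
      field_simp at h3
      exact h3
    exact_mod_cast h4
  have hvP : ∀ j ∈ Finset.range (d + 1), P (v j) = volume.real B := by
    intro j hj
    have hj' : (j : ℝ) ≤ d + 1 := by
      have := Finset.mem_range.1 hj
      exact_mod_cast this.le
    have h5 : (j : ℝ) / (d + 1 : ℝ) ≤ 1 := by
      rw [div_le_one (by positivity)]; exact hj'
    have h6 : 0 ≤ (j : ℝ) / (d + 1 : ℝ) := by positivity
    have h7 : v j ≤ t0 := by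
      simp only [hv]
      exact mul_le_of_le_one_right ht0.le h5
    have h8 : 0 ≤ v j := by
      simp only [hv]
      positivity
    refine hPsmall _ h8 (h7.trans ht01) ?_
    refine lt_of_le_of_lt ?_ ht0C
    exact mul_le_mul_of_nonneg_right h7 (by linarith)
  have hint : ∀ t : ℝ, IntegrableOn (fun x => LinearMap.det (1 + t • (fderiv ℝ g x :
    EuclideanSpace ℝ (Fin d) →ₗ[ℝ] EuclideanSpace ℝ (Fin d)))) B := by
    intro t
    refine ContinuousOn.integrableOn_compact hBc ?_
    have hc : Continuous (fun x => ContinuousLinearMap.det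
      (1 + t • fderiv ℝ g x : EuclideanSpace ℝ (Fin d) →L[ℝ] EuclideanSpace ℝ (Fin d))) :=
      ContinuousLinearMap.continuous_det.comp (by fun_prop)
    exact hc.continuousOn
  have hP1 : P 1 = volume.real B := by
    have e : P 1 = ∑ j ∈ Finset.range (d + 1), P (v j) *
        (Lagrange.basis (Finset.range (d + 1)) v j).eval 1 := by
      simp only [hP]
      rw [setIntegral_congr_fun (g := fun x => ∑ j ∈ Finset.range (d + 1),
        LinearMap.det (1 + v j • (fderiv ℝ g x :
          EuclideanSpace ℝ (Fin d) →ₗ[ℝ] EuclideanSpace ℝ (Fin d))) *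
          (Lagrange.basis (Finset.range (d + 1)) v j).eval 1) measurableSet_closedBall
          (fun x _ => det_interp d (by simp) _ v hvinj 1)]
      rw [integral_finsetSum _ (fun j _ => (hint (v j)).mul_const _)]
      refine Finset.sum_congr rfl fun j _ => ?_
      rw [integral_mul_const]
    rw [e, Finset.sum_congr rfl (fun j hj => by rw [hvP j hj]), ← Finset.mul_sum]
    have hs := Lagrange.sum_basis hvinj ⟨0, by simp⟩
    have hs' := congrArg (Polynomial.eval 1) hs
    rw [Polynomial.eval_finsetSum, Polynomial.eval_one] at hs'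
    rw [hs', mul_one]
  -- but the determinant vanishes at time one
  have hdet0 : ∀ x, LinearMap.det (1 + (1 : ℝ) • (fderiv ℝ g x :
    EuclideanSpace ℝ (Fin d) →ₗ[ℝ] EuclideanSpace ℝ (Fin d))) = 0 := by
    intro x
    have e1 : (1 + (1 : ℝ) • (fderiv ℝ g x :
      EuclideanSpace ℝ (Fin d) →ₗ[ℝ] EuclideanSpace ℝ (Fin d))) = (fderiv ℝ r x :
      EuclideanSpace ℝ (Fin d) →ₗ[ℝ] EuclideanSpace ℝ (Fin d)) := by
      have e2 : fderiv ℝ g x = fderiv ℝ r x - ContinuousLinearMap.id ℝ _ := by
        have e3 := ((hrd x).hasFDerivAt.sub (hasFDerivAt_id x)).fderiv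
        exact e3
      rw [e2]
      ext w
      simp
    rw [e1]
    by_contra hne
    have hsurj : Function.Surjective (fderiv ℝ r x) := by
      have hu : IsUnit (fderiv ℝ r x :
        EuclideanSpace ℝ (Fin d) →ₗ[ℝ] EuclideanSpace ℝ (Fin d)) :=
        (LinearMap.isUnit_iff_isUnit_det _).2 (isUnit_iff_ne_zero.2 hne)
      exact ((Module.End.isUnit_iff _).1 hu).2
    obtain ⟨w, hw⟩ := hsurj (r x)
    have hconst : (fun y => inner ℝ (r y) (r y)) = fun _ => (1 : ℝ) := by
      funext y
      rw [real_inner_self_eq_norm_sq, h2, one_pow]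
    have hd1 := ((hrd x).hasFDerivAt.inner ℝ (hrd x).hasFDerivAt).fderiv
    rw [hconst] at hd1
    have hd2 := congrArg (fun L => L w) hd1
    simp [hw, h2] at hd2
    norm_num at hd2
  have hP10 : P 1 = 0 := by
    simp only [hP]
    rw [setIntegral_congr_fun (g := fun _ => (0 : ℝ)) measurableSet_closedBall
      (fun x _ => hdet0 x)]
    simp
  have hvol : 0 < volume.real B := by
    have h9 : 0 < volume B := measure_closedBall_pos _ _ one_pos
    exact ENNReal.toReal_pos h9.ne' hBc.measure_lt_top.ne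
  linarith

end Pool.Agent.Lib.Brouwer
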