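import Mathlib
import Pool.Agent.Lib.Brouwer.BrC1

set_option autoImplicit false

/-!
No continuous retraction of the ball onto the sphere (smoothing of the `C¹` case).
-/

namespace Pool.Agent.Lib.Brouwer

open MeasureTheory Metric Set Filter Topology

/-- there is no continuous retraction of the ball onto the sphere -/
theorem no_retraction (d : ℕ) (r : EuclideanSpace ℝ (Fin d) → EuclideanSpace ℝ (Fin d))
    (hr : Continuous r) (h1 : ∀ x, ‖x‖ = 1 → r x = x) (h2 : ∀ x, ‖x‖ ≤ 1 → ‖r x‖ = 1) :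
    False := by
  classical
  obtain ⟨R, hRdef⟩ : ∃ R : EuclideanSpace ℝ (Fin d) → EuclideanSpace ℝ (Fin d),
      R = fun x => if ‖x‖ ≤ 1 then r x else x := ⟨_, rfl⟩
  have hRout : ∀ x, 1 < ‖x‖ → R x = x := by
    intro x hx
    rw [hRdef]
    exact if_neg (not_le.2 hx)
  have hRin : ∀ x, ‖x‖ ≤ 1 → R x = r x := by
    intro x hx
    rw [hRdef]
    exact if_pos hx
  have hR : Continuous R := by
    rw [hRdef]
    exact Continuous.if_le hr continuous_id continuous_norm continuous_const (fun x hx => h1 x hx)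
  have hRn : ∀ x, 1 ≤ ‖R x‖ := by
    intro x
    rcases le_or_gt ‖x‖ 1 with hx | hx
    · rw [hRin x hx, h2 x hx]
    · rw [hRout x hx]
      exact hx.le
  obtain ⟨P, hP, hPd, hPe, -⟩ := hR.exists_contDiff_approx_and_eqOn 1
    (ε := fun _ => (1 / 2 : ℝ)) continuous_const (fun _ => by norm_num)
    (S := {x | 2 ≤ ‖x‖}) (U := {x | 1 < ‖x‖}) (isClosed_le continuous_const continuous_norm)
    ((isOpen_lt continuous_const continuous_norm).mem_nhdsSet.2 (by
      intro x hx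
      have hx' : 2 ≤ ‖x‖ := hx
      show 1 < ‖x‖
      linarith))
    (contDiffOn_id.congr fun x hx => hRout x hx)
  have hP1 : ContDiff ℝ 1 P := by simpa using hP
  have hPne : ∀ x, P x ≠ 0 := by
    intro x hx
    have h3 := hPd x
    rw [hx, dist_zero_left] at h3
    have h4 := hRn x
    linarith
  have hQ : ContDiff ℝ 1 (fun x => P ((2 : ℝ) • x)) := hP1.comp (contDiff_const_smul (2 : ℝ))
  have hQn : ContDiff ℝ 1 (fun x => ‖P ((2 : ℝ) • x)‖⁻¹) :=
    (hQ.norm ℝ fun x => hPne _).inv fun x => norm_ne_zero_iff.2 (hPne _)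
  refine no_C1_retraction d (fun x => ‖P ((2 : ℝ) • x)‖⁻¹ • P ((2 : ℝ) • x)) (hQn.smul hQ) ?_ ?_
  · intro x hx
    have h3 : ‖(2 : ℝ) • x‖ = 2 := by
      rw [norm_smul, hx, mul_one, Real.norm_eq_abs, abs_of_pos two_pos]
    have h4 : P ((2 : ℝ) • x) = (2 : ℝ) • x := by
      rw [hPe (show (2 : ℝ) • x ∈ {x | 2 ≤ ‖x‖} from h3.ge), hRout]
      rw [h3]
      norm_num
    show ‖P ((2 : ℝ) • x)‖⁻¹ • P ((2 : ℝ) • x) = x
    rw [h4, h3, smul_smul]
    norm_num
  · intro x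
    show ‖‖P ((2 : ℝ) • x)‖⁻¹ • P ((2 : ℝ) • x)‖ = 1
    rw [norm_smul, norm_inv, norm_norm, inv_mul_cancel₀ (norm_ne_zero_iff.2 (hPne _))]

end Pool.Agent.Lib.Brouwer
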