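import Mathlib
import Pool.Agent.Lib.Brouwer.BrSm

/-!
# The punctured space and the punctured boundary of an orthant are not contractible
-/

set_option autoImplicit false

namespace Pool.Agent.Lib.Brouwer

open MeasureTheory Metric Set Filter Topology

namespace BRC

theorem euclid (d : ℕ) : ¬ ContractibleSpace {x : EuclideanSpace ℝ (Fin d) // x ≠ 0} := by
  intro hcon
  obtain ⟨c, ⟨H⟩⟩ := id_nullhomotopic {x : EuclideanSpace ℝ (Fin d) // x ≠ 0}
  classical
  obtain ⟨g, hg⟩ : ∃ g : EuclideanSpace ℝ (Fin d) → EuclideanSpace ℝ (Fin d),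
      g = fun x => if h : x ≠ 0 then
        ((H (Set.projIcc (0 : ℝ) 1 zero_le_one (2 - 2 * ‖x‖), ⟨x, h⟩) :
          {x : EuclideanSpace ℝ (Fin d) // x ≠ 0}) : EuclideanSpace ℝ (Fin d))
        else (c : EuclideanSpace ℝ (Fin d)) := ⟨_, rfl⟩
  have hg0 : ∀ x, ‖x‖ ≤ 1 / 2 → g x = c := by
    intro x hx
    rw [hg]
    by_cases h : x ≠ 0
    · simp only [h, dite_true, ne_eq, not_false_eq_true]
      rw [Set.projIcc_of_right_le zero_le_one (by linarith : (1 : ℝ) ≤ 2 - 2 * ‖x‖)]
      have := H.apply_one ⟨x, h⟩
      have h2 : (⟨1, right_mem_Icc.2 zero_le_one⟩ : unitInterval) = 1 := rfl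
      rw [h2, this]
      rfl
    · simp only [h, dite_false]
  have hg1 : ∀ x, ‖x‖ = 1 → g x = x := by
    intro x hx
    have h : x ≠ 0 := by
      rintro rfl
      simp at hx
    rw [hg]
    simp only [h, dite_true, ne_eq, not_false_eq_true]
    rw [Set.projIcc_of_le_left zero_le_one (by rw [hx]; norm_num)]
    have := H.apply_zero ⟨x, h⟩
    have h2 : (⟨0, left_mem_Icc.2 zero_le_one⟩ : unitInterval) = 0 := rfl
    rw [h2, this]
    rfl
  have hgne : ∀ x, g x ≠ 0 := by
    intro x
    rw [hg]
    by_cases h : x ≠ 0
    · simp only [h, dite_true, ne_eq, not_false_eq_true]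
      exact (H (Set.projIcc (0 : ℝ) 1 zero_le_one (2 - 2 * ‖x‖), ⟨x, h⟩)).2
    · simp only [h, dite_false]
      exact c.2
  have hgc : Continuous g := by
    rw [continuous_iff_continuousAt]
    intro x
    by_cases h : x = 0
    · have h1 : g =ᶠ[𝓝 x] fun _ => (c : EuclideanSpace ℝ (Fin d)) := by
        have h2 : Metric.ball (0 : EuclideanSpace ℝ (Fin d)) (1 / 2) ∈ 𝓝 x := by
          rw [h]
          exact Metric.ball_mem_nhds _ (by norm_num)
        filter_upwards [h2] with y hy
        apply hg0
        rw [mem_ball_zero_iff] at hy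
        exact hy.le
      exact (continuousAt_const.congr h1.symm)
    · have h1 : ContinuousOn g {x | x ≠ 0} := by
        rw [continuousOn_iff_continuous_domRestrict]
        have h2 : ({x : EuclideanSpace ℝ (Fin d) | x ≠ 0}).domRestrict g =
            fun x : {x : EuclideanSpace ℝ (Fin d) // x ≠ 0} =>
            ((H (Set.projIcc (0 : ℝ) 1 zero_le_one (2 - 2 * ‖(x : EuclideanSpace ℝ (Fin d))‖), x) :
              {x : EuclideanSpace ℝ (Fin d) // x ≠ 0}) : EuclideanSpace ℝ (Fin d)) := by
          funext x
          have h3 : (x : EuclideanSpace ℝ (Fin d)) ≠ 0 := x.2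
          rw [Set.domRestrict_apply, hg]
          simp only [h3, dite_true, ne_eq, not_false_eq_true]
          rfl
        rw [h2]
        apply continuous_subtype_val.comp
        apply H.continuous.comp
        apply Continuous.prodMk _ continuous_id
        apply continuous_projIcc.comp
        fun_prop
      exact h1.continuousAt (isOpen_ne.mem_nhds h)
  refine no_retraction d (fun x => ‖g x‖⁻¹ • g x) ?_ ?_ ?_
  · exact (hgc.norm.inv₀ (fun x => norm_ne_zero_iff.2 (hgne x))).smul hgc
  · intro x hx
    simp only [hg1 x hx, hx, inv_one, one_smul]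
  · intro x _
    rw [norm_smul, norm_inv, norm_norm, inv_mul_cancel₀ (norm_ne_zero_iff.2 (hgne x))]

end BRC

/-- a finite dimensional space without the origin is not contractible -/
theorem not_contractible_compl_zero (E : Type*) [NormedAddCommGroup E] [NormedSpace ℝ E]
    [FiniteDimensional ℝ E] : ¬ ContractibleSpace {x : E // x ≠ 0} := by
  intro hcon
  apply BRC.euclid (Module.finrank ℝ E)
  have e : {x : EuclideanSpace ℝ (Fin (Module.finrank ℝ E)) // x ≠ 0} ≃ₜ {x : E // x ≠ 0} :=
    Homeomorph.subtype (toEuclidean (E := E)).symm.toHomeomorph (fun x => by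
      constructor
      · intro h h1
        exact h ((toEuclidean (E := E)).symm.map_eq_zero_iff.1 h1)
      · intro h h1
        apply h
        rw [h1]
        exact map_zero (toEuclidean (E := E)).symm)
  exact e.contractibleSpace

namespace BRC

/-- the hyperplane of vectors with sum zero -/
def hyp (ι : Type*) [Fintype ι] : Submodule ℝ (ι → ℝ) :=
  LinearMap.ker (∑ i : ι, (LinearMap.proj i : (ι → ℝ) →ₗ[ℝ] ℝ))

theorem mem_hyp {ι : Type*} [Fintype ι] (w : ι → ℝ) : w ∈ hyp ι ↔ ∑ i, w i = 0 := by
  unfold hyp
  rw [LinearMap.mem_ker]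
  simp

theorem avg_sum {ι : Type*} [Fintype ι] [Nonempty ι] (y : ι → ℝ) :
    ∑ i, (y i - (∑ j, y j) / Fintype.card ι) = 0 := by
  rw [Finset.sum_sub_distrib, Finset.sum_const, Finset.card_univ, nsmul_eq_mul]
  have : (Fintype.card ι : ℝ) ≠ 0 := by
    have := Fintype.card_pos (α := ι)
    positivity
  field_simp
  ring

/-- the homeomorphism between the punctured hyperplane and the punctured boundary of the orthant -/
noncomputable def homeo (ι : Type*) [Fintype ι] [Nonempty ι] :
    {w : hyp ι // w ≠ 0} ≃ₜ {y : ι → ℝ // (∀ i, 0 ≤ y i) ∧ y ≠ 0 ∧ ∃ i, y i = 0} where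
  toFun w := ⟨fun i => (w : hyp ι).1 i - Finset.univ.inf' Finset.univ_nonempty (w : hyp ι).1, by
    refine ⟨fun i => ?_, ?_, ?_⟩
    · have := Finset.inf'_le (w : hyp ι).1 (Finset.mem_univ i)
      linarith
    · intro h
      apply w.2
      have h1 : ∀ i, (w : hyp ι).1 i = Finset.univ.inf' Finset.univ_nonempty (w : hyp ι).1 := by
        intro i
        have := congrFun h i
        simp only [Pi.zero_apply] at this
        linarith
      have h2 := (mem_hyp _).1 (w : hyp ι).2
      rw [Finset.sum_congr rfl (fun i _ => h1 i), Finset.sum_const, Finset.card_univ,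
        nsmul_eq_mul] at h2
      have h3 : (Fintype.card ι : ℝ) ≠ 0 := by
        have := Fintype.card_pos (α := ι)
        positivity
      have h4 := (mul_eq_zero.1 h2).resolve_left h3
      ext i
      rw [h1 i, h4]
      rfl
    · obtain ⟨i, -, hi⟩ := Finset.exists_mem_eq_inf' (Finset.univ_nonempty (α := ι))
        (w : hyp ι).1
      exact ⟨i, by simp only [hi, sub_self]⟩⟩
  invFun y := ⟨⟨fun i => y.1 i - (∑ j, y.1 j) / Fintype.card ι,
      (mem_hyp _).2 (avg_sum y.1)⟩, by
    intro h
    apply y.2.2.1
    have h1 : ∀ i, y.1 i = (∑ j, y.1 j) / Fintype.card ι := by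
      intro i
      have h2 := congrArg (fun z : hyp ι => z.1 i) h
      simp only [ZeroMemClass.coe_zero, Pi.zero_apply] at h2
      linarith
    obtain ⟨i, hi⟩ := y.2.2.2
    funext j
    rw [h1 j, ← h1 i, hi]
    rfl⟩
  left_inv w := by
    apply Subtype.ext
    apply Subtype.ext
    funext i
    have h2 := (mem_hyp _).1 (w : hyp ι).2
    have h3 : (Fintype.card ι : ℝ) ≠ 0 := by
      have := Fintype.card_pos (α := ι)
      positivity
    simp only [Finset.sum_sub_distrib, Finset.sum_const, Finset.card_univ, nsmul_eq_mul]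
    rw [h2]
    field_simp
    ring
  right_inv y := by
    apply Subtype.ext
    funext i
    simp only
    have h : Finset.univ.inf' Finset.univ_nonempty
        (fun i => y.1 i - (∑ j, y.1 j) / Fintype.card ι) = - ((∑ j, y.1 j) / Fintype.card ι) := by
      obtain ⟨k, hk⟩ := y.2.2.2
      apply le_antisymm
      · have := Finset.inf'_le (fun i => y.1 i - (∑ j, y.1 j) / Fintype.card ι)
          (Finset.mem_univ k)
        rw [hk] at this
        linarith
      · apply Finset.le_inf'
        intro j _
        have := y.2.1 j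
        linarith
    rw [h]
    ring
  continuous_toFun := by
    apply Continuous.subtype_mk
    apply continuous_pi
    intro i
    apply Continuous.sub
    · exact (continuous_apply i).comp (continuous_subtype_val.comp continuous_subtype_val)
    · apply Continuous.finset_inf'_apply
      intro j _
      exact (continuous_apply j).comp (continuous_subtype_val.comp continuous_subtype_val)
  continuous_invFun := by
    apply Continuous.subtype_mk
    apply Continuous.subtype_mk
    apply continuous_pi
    intro i
    apply Continuous.sub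
    · exact (continuous_apply i).comp continuous_subtype_val
    · apply Continuous.div_const
      apply continuous_finsetSum
      intro j _
      exact (continuous_apply j).comp continuous_subtype_val

end BRC

/-- the punctured boundary of an orthant is not contractible -/
theorem not_contractible_orthant (ι : Type*) [Fintype ι] :
    ¬ ContractibleSpace {y : ι → ℝ // (∀ i, 0 ≤ y i) ∧ y ≠ 0 ∧ ∃ i, y i = 0} := by
  intro hcon
  cases isEmpty_or_nonempty ι with
  | inl h =>
    obtain ⟨y⟩ := (inferInstance : Nonempty {y : ι → ℝ // (∀ i, 0 ≤ y i) ∧ y ≠ 0 ∧ ∃ i, y i = 0})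
    obtain ⟨i, -⟩ := y.2.2.2
    exact h.elim i
  | inr h =>
    exact not_contractible_compl_zero (BRC.hyp ι) (BRC.homeo ι).contractibleSpace

end Pool.Agent.Lib.Brouwer
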